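import Pool.Agent.H83.Hard
import Pool.Agent.H83.RBMember

/-!
# The unweighted red-blue `s`-`t` cut problem in undirected graphs is NP-complete
-/

set_option autoImplicit false

namespace Pool.Agent.Results.MP_ad21dd_lc.RedBlueCutNPComplete

open Pool.Agent.H83

/-- The unweighted red-blue `s`-`t` cut problem in undirected simple graphs is NP-complete under
polynomial time many-one reductions. -/
theorem result : NPComplete RedBlueCut :=
  ⟨RBMember.inNP, npHard_of_csp (CSPRed.redWord_poly Poly.id) CSPRed.redWord_iff⟩

end Pool.Agent.Results.MP_ad21dd_lc.RedBlueCutNPComplete
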